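import Pool.Agent.N242.KB.Stm

/-!
# Project KB: a `√2`-separated set has finitely many points in a ball of radius less than one
-/

set_option autoImplicit false

open Metric Set Filter Topology

namespace Pool.Agent.N717.KB

open Pool.Agent.N242.NT Pool.Agent.N242.KB

universe u

theorem inner_bound {H : Type u} [NormedAddCommGroup H] [InnerProductSpace ℝ H] {κ : ℝ}
    {a b x : H} (ha : ‖x - a‖ ^ 2 ≤ 1 - κ) (hb : ‖x - b‖ ^ 2 ≤ 1 - κ) (hab : √2 ≤ ‖a - b‖) :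
    inner ℝ (x - a) (x - b) ≤ -κ := by
  have h1 : ‖(x - a) - (x - b)‖ ^ 2 = ‖x - a‖ ^ 2 - 2 * inner ℝ (x - a) (x - b) +
      ‖x - b‖ ^ 2 := norm_sub_sq_real _ _
  have h2 : (x - a) - (x - b) = -(a - b) := by abel
  rw [h2, norm_neg] at h1
  have h3 : (2 : ℝ) ≤ ‖a - b‖ ^ 2 := by
    have h4 : (√2) ^ 2 ≤ ‖a - b‖ ^ 2 := pow_le_pow_left₀ (Real.sqrt_nonneg 2) hab 2
    rwa [Real.sq_sqrt (by norm_num)] at h4
  linarith

theorem card_bound {H : Type u} [NormedAddCommGroup H] [InnerProductSpace ℝ H] {G : Set H}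
    (hG : Sep G) (x : H) {κ : ℝ} (T : Finset H)
    (hT : ∀ g ∈ T, g ∈ G ∧ ‖x - g‖ ^ 2 ≤ 1 - κ) : κ * (T.card : ℝ) ^ 2 ≤ T.card := by
  classical
  have h0 : (0 : ℝ) ≤ ‖∑ g ∈ T, (x - g)‖ ^ 2 := by positivity
  rw [← real_inner_self_eq_norm_sq, sum_inner] at h0
  have h1 : ∑ g ∈ T, inner ℝ (x - g) (∑ h ∈ T, (x - h)) ≤
      ∑ g ∈ T, ∑ h ∈ T, ((if g = h then 1 else 0) - κ) := by
    refine Finset.sum_le_sum (fun g hg => ?_)
    rw [inner_sum]
    refine Finset.sum_le_sum (fun h hh => ?_)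
    by_cases e : g = h
    · rw [if_pos e, ← e, real_inner_self_eq_norm_sq]
      exact (hT g hg).2
    · rw [if_neg e, zero_sub]
      exact inner_bound (hT g hg).2 (hT h hh).2 (hG g (hT g hg).1 h (hT h hh).1 e)
  have h2 : ∑ g ∈ T, ∑ h ∈ T, (((if g = h then 1 else 0) : ℝ) - κ) =
      (T.card : ℝ) - κ * (T.card : ℝ) ^ 2 := by
    simp only [Finset.sum_sub_distrib, Finset.sum_ite_eq, Finset.sum_const, nsmul_eq_mul]
    rw [Finset.sum_congr rfl (fun g hg => if_pos hg)]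
    simp only [Finset.sum_const, nsmul_eq_mul]
    ring
  linarith

/-- (KFI) -/
theorem t_KFI : S_KFI.{u} := by
  intro H _ _ G hG x κ hκ
  by_contra hinf
  obtain ⟨m, hm⟩ := exists_nat_gt (1 / κ)
  obtain ⟨T, hT, hc⟩ := Set.Infinite.exists_subset_card_eq hinf (m + 1)
  have h := card_bound hG x T (fun g hg => hT hg)
  rw [hc] at h
  push_cast at h
  have h1 : 1 < κ * m := by
    rw [div_lt_iff₀ hκ] at hm
    linarith
  have hm0 : (0 : ℝ) ≤ m := Nat.cast_nonneg m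
  nlinarith

end Pool.Agent.N717.KB
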